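import Pool.Agent.H852R2.DM.Defs

/-! Task COUNTW of project DM (helper852): permutations with an orbit of given weight. -/

set_option autoImplicit false

namespace DM852
open RC14 RC852 Finset Equiv

namespace COUNTW

theorem card_sign_eq {α : Type} [Fintype α] [DecidableEq α] (h : 2 ≤ Fintype.card α) (s : ℤˣ) :
    2 * #{τ : Perm α | Perm.sign τ = s} = (Fintype.card α).factorial := by
  haveI : Nontrivial α := Fintype.one_lt_card_iff_nontrivial.1 (by omega)
  have h1 : 2 * #{τ : Perm α | Perm.sign τ = 1} = (Fintype.card α).factorial := by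
    have := two_mul_card_alternatingGroup (α := α)
    rw [Fintype.card_perm] at this
    rw [← this, ← Nat.card_eq_fintype_card (α := alternatingGroup α)]
    congr 1
    rw [Nat.card_eq_fintype_card, Fintype.card_of_subtype]
    intro τ
    simp [Perm.mem_alternatingGroup]
  rcases Int.units_eq_one_or s with rfl | rfl
  · exact h1
  · have h2 : #{τ : Perm α | Perm.sign τ = 1} + #{τ : Perm α | Perm.sign τ = -1} =
        (Fintype.card α).factorial := by
      rw [← Fintype.card_perm (α := α), ← Finset.card_univ,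
        ← Finset.card_filter_add_card_filter_not (s := (univ : Finset (Perm α)))
          (fun τ => Perm.sign τ = 1)]
      congr 2
      ext τ
      rcases Int.units_eq_one_or (Perm.sign τ) with h | h <;> simp [h]
    omega

theorem card_sign_le {α : Type} [Fintype α] [DecidableEq α] (s : ℤˣ) :
    (#{τ : Perm α | Perm.sign τ = s} : ℝ) ≤
      (if 2 ≤ Fintype.card α then 1 / 2 else 1) * ((Fintype.card α).factorial : ℝ) := by
  split_ifs with h
  · have := card_sign_eq h s
    have h2 : (2 : ℝ) * (#{τ : Perm α | Perm.sign τ = s} : ℝ) = ((Fintype.card α).factorial : ℝ) := by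
      exact_mod_cast this
    linarith
  · rw [one_mul]
    have : #{τ : Perm α | Perm.sign τ = s} ≤ (Fintype.card α).factorial := by
      rw [← Fintype.card_perm (α := α), ← Finset.card_univ]
      exact Finset.card_le_card (Finset.filter_subset _ _)
    exact_mod_cast this

theorem full_isCycle {α : Type} [Fintype α] [DecidableEq α] (h : 2 ≤ Fintype.card α) {σ : Perm α}
    (hσ : σ.IsCycleOn Set.univ) : σ.IsCycle ∧ σ.support = univ := by
  haveI : Nontrivial α := Fintype.one_lt_card_iff_nontrivial.1 (by omega)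
  have hn : (Set.univ : Set α).Nontrivial := Set.nontrivial_univ
  refine ⟨Perm.isCycle_iff_exists_isCycleOn.2 ⟨Set.univ, hn, hσ, fun x _ => Set.mem_univ x⟩, ?_⟩
  ext x
  simp only [Perm.mem_support, mem_univ, iff_true]
  exact hσ.apply_ne hn (Set.mem_univ x)

theorem full_sign {α : Type} [Fintype α] [DecidableEq α] [Nonempty α] {σ : Perm α}
    (hσ : σ.IsCycleOn Set.univ) : Perm.sign σ = -(-1) ^ Fintype.card α := by
  rcases Nat.lt_or_ge (Fintype.card α) 2 with h | h
  · have h1 : Fintype.card α = 1 := by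
      have := Fintype.card_pos (α := α)
      omega
    haveI : Subsingleton α := Fintype.card_le_one_iff_subsingleton.1 h1.le
    have : σ = 1 := Subsingleton.elim _ _
    rw [this, h1]; simp
  · obtain ⟨hc, hs⟩ := full_isCycle h hσ
    rw [hc.sign, hs, Finset.card_univ]

open Classical in
theorem card_full {α : Type} [Fintype α] [Nonempty α] :
    #{σ : Perm α | σ.IsCycleOn Set.univ} ≤ (Fintype.card α - 1).factorial := by
  rcases Nat.lt_or_ge (Fintype.card α) 2 with h | h
  · have h1 : Fintype.card α = 1 := by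
      have := Fintype.card_pos (α := α)
      omega
    calc _ ≤ #(univ : Finset (Perm α)) := Finset.card_le_card (Finset.filter_subset _ _)
      _ = _ := by rw [Finset.card_univ, Fintype.card_perm, h1]; rfl
  · have key := Equiv.Perm.card_of_cycleType_singleton (α := α) (n := Fintype.card α) h le_rfl
    rw [Nat.choose_self, mul_one] at key
    rw [← key]
    refine Finset.card_le_card fun σ hσ => ?_
    simp only [Finset.mem_filter, Finset.mem_univ, true_and] at hσ ⊢
    obtain ⟨hc, hs⟩ := full_isCycle h hσ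
    rw [hc.cycleType, hs, Finset.card_univ]

open Classical in
theorem card_orbit {D : Type} [Fintype D] (s : ℤˣ) (S : Finset D) (hS : S.Nonempty) :
    (#{ψ : Perm D | Perm.sign ψ = s ∧ ∃ d, (univ.filter fun d' => ψ.SameCycle d d') = S} : ℝ) ≤
      (if S.card + 2 ≤ Fintype.card D then 1 / 2 else 1) *
          ((S.card - 1).factorial * (Fintype.card D - S.card).factorial : ℝ) := by
  haveI : Nonempty {a // a ∈ S} := ⟨⟨hS.choose, hS.choose_spec⟩⟩
  set A : Finset (Perm {a // a ∈ S}) := {σ | σ.IsCycleOn Set.univ} with hA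
  set B : Finset (Perm {a // ¬ a ∈ S}) := {τ | Perm.sign τ = s * -(-1) ^ S.card} with hB
  have hsub : ({ψ : Perm D | Perm.sign ψ = s ∧
      ∃ d, (univ.filter fun d' => ψ.SameCycle d d') = S} : Finset (Perm D)) ⊆
      (A ×ˢ B).image (fun p => Perm.subtypeCongr p.1 p.2) := by
    intro ψ hψ
    simp only [Finset.mem_filter, Finset.mem_univ, true_and] at hψ
    obtain ⟨hs, d, hd⟩ := hψ
    have hmem : ∀ x, x ∈ S ↔ ψ.SameCycle d x := fun x => by rw [← hd]; simp
    have h1 : ∀ x, ψ x ∈ S ↔ x ∈ S := fun x => by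
      rw [hmem, hmem]
      exact Perm.sameCycle_apply_right
    have h2 : ∀ x, ¬ ψ x ∈ S ↔ ¬ x ∈ S := fun x => not_congr (h1 x)
    have heq : ψ = Perm.subtypeCongr (ψ.subtypePerm h1) (ψ.subtypePerm (p := fun x => ¬ x ∈ S) h2) := by
      ext x
      by_cases hx : x ∈ S
      · rw [Perm.subtypeCongr.left_apply _ _ hx]; simp
      · rw [Perm.subtypeCongr.right_apply (p := fun x => x ∈ S) _ _ hx]; simp
    have hfull : (ψ.subtypePerm h1).IsCycleOn Set.univ := by
      refine ⟨⟨Set.mapsTo_univ _ _, (ψ.subtypePerm h1).injective.injOn,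
        by simpa using Set.surjOn_univ.2 (ψ.subtypePerm h1).surjective⟩, ?_⟩
      intro x _ y _
      rw [Perm.sameCycle_subtypePerm]
      exact ((hmem x).1 x.2).symm.trans ((hmem y).1 y.2)
    rw [Finset.mem_image]
    refine ⟨(ψ.subtypePerm h1, ψ.subtypePerm (p := fun x => ¬ x ∈ S) h2), ?_, heq.symm⟩
    rw [Finset.mem_product]
    refine ⟨by rw [hA]; simpa using hfull, ?_⟩
    rw [hB]
    simp only [Finset.mem_filter, Finset.mem_univ, true_and]
    have h3 := full_sign hfull
    have h4 : Perm.sign ψ = Perm.sign (ψ.subtypePerm h1) * Perm.sign (ψ.subtypePerm (p := fun x => ¬ x ∈ S) h2) := by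
      conv_lhs => rw [heq]
      refine (Perm.sign_subtypeCongr (p := fun x => x ∈ S) _ _).trans ?_
      congr!
    rw [Fintype.card_coe] at h3
    rw [hs, h3] at h4
    rw [h4]
    generalize Perm.sign (ψ.subtypePerm (p := fun x => ¬ x ∈ S) h2) = t
    have h5 : (-(-1) ^ S.card : ℤˣ) * -(-1) ^ S.card = 1 := Int.units_mul_self _
    rw [mul_comm (-(-1) ^ S.card : ℤˣ) t, mul_assoc, h5, mul_one]
  have hcA : (#A : ℝ) ≤ ((S.card - 1).factorial : ℝ) := by
    have := card_full (α := {a // a ∈ S})
    rw [Fintype.card_coe] at this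
    have h5 : #A ≤ (S.card - 1).factorial := by
      refine le_trans (le_of_eq ?_) this
      rw [hA]
      congr 1
      ext σ
      simp
    exact_mod_cast h5
  have hcard : Fintype.card {a // ¬ a ∈ S} = Fintype.card D - S.card := by
    rw [Fintype.card_subtype_compl, Fintype.card_coe]
  have hle : S.card ≤ Fintype.card D := Finset.card_le_univ S
  have hcB : (#B : ℝ) ≤ (if S.card + 2 ≤ Fintype.card D then 1 / 2 else 1) *
      ((Fintype.card D - S.card).factorial : ℝ) := by
    have := card_sign_le (α := {a // ¬ a ∈ S}) (s * -(-1) ^ S.card)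
    rw [hcard] at this
    have e0 : #B = #{τ : Perm {a // ¬ a ∈ S} | Perm.sign τ = s * -(-1) ^ S.card} := by
      rw [hB]
    rw [e0]
    refine this.trans (le_of_eq ?_)
    congr 1
    by_cases h : S.card + 2 ≤ Fintype.card D
    · rw [if_pos h, if_pos (by omega)]
    · rw [if_neg h, if_neg (by omega)]
  calc (#{ψ : Perm D | Perm.sign ψ = s ∧ ∃ d, (univ.filter fun d' => ψ.SameCycle d d') = S} : ℝ)
      ≤ (#((A ×ˢ B).image (fun p => Perm.subtypeCongr p.1 p.2)) : ℝ) := by
        exact_mod_cast Finset.card_le_card hsub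
    _ ≤ (#(A ×ˢ B) : ℝ) := by exact_mod_cast Finset.card_image_le
    _ = (#A : ℝ) * #B := by rw [Finset.card_product]; push_cast; ring
    _ ≤ ((S.card - 1).factorial : ℝ) * ((if S.card + 2 ≤ Fintype.card D then 1 / 2 else 1) *
          ((Fintype.card D - S.card).factorial : ℝ)) :=
        mul_le_mul hcA hcB (by positivity) (by positivity)
    _ = _ := by ring

end COUNTW

open Classical in
/-- permutations of `D` of sign `s` with an orbit whose weight satisfies `W` -/
theorem COUNTW {D : Type} [Fintype D] (ω : D → ℕ) (W : ℕ → Prop) (s : ℤˣ) :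
    (Nat.card {ψ : Perm D // Perm.sign ψ = s ∧
        ∃ d, W (∑ d' with ψ.SameCycle d d', ω d')} : ℝ) ≤
      ∑ S : Finset D with S.Nonempty ∧ W (∑ d ∈ S, ω d),
        (if S.card + 2 ≤ Fintype.card D then 1 / 2 else 1) *
          ((S.card - 1).factorial * (Fintype.card D - S.card).factorial : ℝ) := by
  rw [Nat.card_eq_fintype_card, Fintype.card_subtype]
  have hsub : ({ψ : Perm D | Perm.sign ψ = s ∧
      ∃ d, W (∑ d' with ψ.SameCycle d d', ω d')} : Finset (Perm D)) ⊆
      (({S : Finset D | S.Nonempty ∧ W (∑ d ∈ S, ω d)} : Finset (Finset D))).biUnion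
        (fun S => {ψ : Perm D | Perm.sign ψ = s ∧
          ∃ d, (univ.filter fun d' => ψ.SameCycle d d') = S}) := by
    intro ψ hψ
    simp only [Finset.mem_filter, Finset.mem_univ, true_and] at hψ
    obtain ⟨hs, d, hd⟩ := hψ
    rw [Finset.mem_biUnion]
    refine ⟨univ.filter fun d' => ψ.SameCycle d d', ?_, ?_⟩
    · simp only [Finset.mem_filter, Finset.mem_univ, true_and]
      exact ⟨⟨d, by simp [Perm.SameCycle.refl]⟩, hd⟩
    · simp only [Finset.mem_filter, Finset.mem_univ, true_and]
      exact ⟨hs, d, rfl⟩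
  have h1 := (Finset.card_le_card hsub).trans Finset.card_biUnion_le
  have h2 : (#{ψ : Perm D | Perm.sign ψ = s ∧
      ∃ d, W (∑ d' with ψ.SameCycle d d', ω d')} : ℝ) ≤
      ∑ S : Finset D with S.Nonempty ∧ W (∑ d ∈ S, ω d),
        (#{ψ : Perm D | Perm.sign ψ = s ∧
          ∃ d, (univ.filter fun d' => ψ.SameCycle d d') = S} : ℝ) := by
    exact_mod_cast h1
  refine h2.trans (Finset.sum_le_sum fun S hS => ?_)
  simp only [Finset.mem_filter, Finset.mem_univ, true_and] at hS
  exact COUNTW.card_orbit s S hS.1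

end DM852
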